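import Mathlib
import Pool.Agent.T2h81.UC.B4

/-!
# Prime-free translates of arbitrary sets, next to almost all integers

Theorem.  There is an absolute constant `C` such that for all `D ≥ 0`, `λ ≥ 1`, `0 < ε ≤ 1` and all
`X ≥ X₀(D, λ, ε)` the following holds with `θ = exp (- exp (C λ / ε))`.  Let `V_0, ..., V_(m-1)` be ANY sets of at
most `λ log X` integers of absolute value at most `X ^ D`, each of which meets at most `θ m` of them.  Then in every
interval of length `N ≥ X` all but `ε N` of the integers `n` are such that at least `θ m` of the translates `n + V_i`
consist of integers with a prime factor at most `X ^ (1 / λ)` (so they contain no prime, beyond `X ^ (1 / λ)`).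

A random translate of such a set is expected to contain about `λ` primes (if it is near `X`); the sets may have any
arithmetic structure.  Examples: `V_t = t + V` for one set `V` and `0 ≤ t < T`, where `T` is large against the
largest number of representations of `t` as a difference; for `V` the union of `k` intervals of length
`(λ / k) log X` beginning at prescribed places `z_1, ..., z_k` (up to `X ^ D`) this says that near almost all `n`
there are `t` such that `n + t + z_1, ..., n + t + z_k` begin prime-free intervals of that length.

The starting files have, for one arbitrary set `V`, a positive proportion of the `n` for which `n + V` is covered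
(`Pool.Agent.N837.LP.genW`); here the covered translates occur in the neighbourhood of almost all `n`.

Method.  In each residue class modulo the primes up to `(log X) / 64` most of the sets have few elements prime to
these primes (on average over the classes); the sets without overlap are put into groups of bounded size, and the
second moment theorem for families of windows (`Pool/Agent/T2h81/UC/A11.lean`) is applied to each group.  The primes
which divide a difference of two elements of the group are given artificial residue classes; a hit by one of them has
negligible probability.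
-/

set_option autoImplicit false

namespace Pool.Agent.Results.MP_69be96_nt.FamiliesOfSets

open Finset

/-- Every element of the translate `n + V` has a prime factor at most `z`. -/
def Covered (z : ℝ) (V : Finset ℤ) (n : ℤ) : Prop :=
  ∀ v ∈ V, ∃ p : ℕ, p.Prime ∧ (p : ℝ) ≤ z ∧ (p : ℤ) ∣ n + v

open Classical in
/-- **Prime-free translates of arbitrary sets, next to almost all integers.** -/
theorem result : ∃ C : ℝ, 1 ≤ C ∧ ∀ D lam ε : ℝ, 0 ≤ D → 1 ≤ lam → 0 < ε → ε ≤ 1 →
    ∃ X₀ : ℝ, 1 < X₀ ∧ ∀ X : ℝ, X₀ ≤ X → ∀ (M : ℤ) (N : ℕ), X ≤ N →
      ∀ (m : ℕ) (V : ℕ → Finset ℤ),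
        (∀ i < m, ((V i).card : ℝ) ≤ lam * Real.log X) →
        (∀ i < m, ∀ v ∈ V i, |(v : ℝ)| ≤ X ^ D) →
        (∀ i < m, (((range m).filter (fun j => ¬ Disjoint (V i) (V j))).card : ℝ) ≤
          Real.exp (-Real.exp (C * lam / ε)) * m) →
        (((Ioc M (M + N)).filter (fun n => (((range m).filter
          (fun i => Covered (X ^ (1 / lam)) (V i) n)).card : ℝ) <
            Real.exp (-Real.exp (C * lam / ε)) * m)).card : ℝ) ≤ ε * N := by
  obtain ⟨C, hC, h⟩ := Pool.Agent.T2h81.UC.fam_main
  refine ⟨C, hC, fun D lam ε hD hlam hε hε1 => ?_⟩
  obtain ⟨X₀, hX₀, h2⟩ := h D lam ε hD hlam hε hε1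
  exact ⟨X₀, hX₀, fun X hX M N hN m V h1 h3 h4 => h2 X hX M N hN m V h1 h3 h4⟩

end Pool.Agent.Results.MP_69be96_nt.FamiliesOfSets
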