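import Pool.Agent.T2q87.RX.Main

/-!
# All subsets of almost all tuples of any set of shifts are cut out by EXACT clusters of primes isolated by
# record gaps, also at all dilates

Let `f(X) = log X (log₂ X)² log₄ X / (log₃ X)²`, the order of the largest gaps between consecutive primes that are
known to occur up to `X`.

Theorem. There is an absolute constant `ρ > 0` such that for all `k, J`, all squarefree `q` and all `ε > 0` there are
`M, K, n₀, m` and `c > 0` with: for every `a` coprime to `q`, all large `X` and EVERY set `V` of at least `n₀`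
multiples of `M` in `[0, c f(X)]` there are `m` subsets `U_1, …, U_m` of `V` such that

* for every `j`, for all but at most `ε |U_j|^(k+1)` of the `(k+1)`-tuples `y` of distinct elements of `U_j` and for
  EVERY subset `I` of the indices `0, …, k` there is a set `E ⊆ V` with at most `K` elements which contains `y_i`
  for `i ∈ I` and does not contain `y_i` for `i ∉ I`, and such that at least `X^(5/6)` integers `n ≡ a (mod q)` of
  `(X, 3X]` have the following properties: the primes at distance at most `c f(X)` from `n` are EXACTLY the numbers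
  `n + e`, `e ∈ E`, and for all `1 ≤ i, j ≤ J`, `i ≠ j`, no prime `p` satisfies `|j p - i n| ≤ c f(X)` (there are
  no primes in the windows around the dilates `(i / j) n`);
* all but at most `ε |V|` elements of `V` lie in at least `(ρ - ε) m` of the sets `U_j`.

In particular one of the `U_j` has at least `(ρ - 2 ε) |V|` elements: all `2^(k+1)` combinations of prime and not prime
occur for the shifts by the elements of almost all of its tuples, in prime patterns which are exactly known to lie in
`n + V` and are isolated by gaps of record size (if `V` lies in `[0, (c / 2) f(X)]` and `I` is not empty, the last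
prime of the cluster is followed, and the first one is preceded, by a gap longer than `(c / 2) f(X)`).

Method. (1) The coloured Maynard-Tao theorem for arbitrary admissible tuples in the record windows and their dilates
(`Pool.Agent.TH101.RG.tuple_multiples`, starting files; the record sieve of helper256, helper410, helper312,
helper362 and others), with the exceptional integers chosen as those which have a given cluster. (2) The almost
clique cover for families of finite sets with such a hitting property (`Pool.Agent.N646.AC.cover`, helper646).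
(3) From all prime to all patterns, exactly (`Pool.Agent.T2q87.RX.Comb`): a set of the integers `n` with a
frequent sub-cluster `S` can be extended by a given further element for a proportion `1 / (2 (k+1))` of these `n`
only for few elements, as the clusters have at most `K` elements; the other tuples therefore have all the patterns,
and the pigeonhole principle over the at most `(|V| + 1)^K` possible clusters gives the exact one.
-/

set_option autoImplicit false

namespace Pool.Agent.Results.MP_69be96_nt.IsolatedExactClusters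

open Filter Finset

/-- The record scale `f(x) = log x (log₂ x)² log₄ x / (log₃ x)²` (iterated natural logarithms). -/
noncomputable def f (x : ℝ) : ℝ :=
  Real.log x * (Real.log (Real.log x)) ^ 2 * Real.log (Real.log (Real.log (Real.log x))) /
    (Real.log (Real.log (Real.log x))) ^ 2

/-- The integers `n ≡ a (mod q)` of `(X, 3 X]` such that the primes at distance at most `G` from `n` are exactly the
numbers `n + e` with `e ∈ E`, and no prime `p` satisfies `|j p - i n| ≤ G` with `1 ≤ i, j ≤ J`, `i ≠ j`. -/
def exactly (G X : ℝ) (E : Finset ℕ) (J q a : ℕ) : Set ℕ :=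
  {n : ℕ | X < n ∧ (n : ℝ) ≤ 3 * X ∧ n ≡ a [MOD q] ∧
    (∀ p : ℕ, (p.Prime ∧ |(p : ℝ) - n| ≤ G) ↔ ∃ e ∈ E, p = n + e) ∧
    ∀ i j : ℕ, 1 ≤ i → i ≤ J → 1 ≤ j → j ≤ J → i ≠ j → ∀ p : ℕ, p.Prime → G < |(j : ℝ) * p - i * n|}

/-- Every subset `I` of the set of the indices is `{i : y i ∈ E}` for a set `E ⊆ V` of at most `K` elements which is
the exact cluster for at least `X^(5/6)` integers. -/
def AllPatterns {k : ℕ} (G X : ℝ) (V : Finset ℕ) (K J q a : ℕ) (y : Fin (k + 1) → ℕ) : Prop :=
  ∀ I : Finset (Fin (k + 1)), ∃ E : Finset ℕ, E ⊆ V ∧ E.card ≤ K ∧ (∀ i, y i ∈ E ↔ i ∈ I) ∧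
    X ^ (5 / 6 : ℝ) ≤ ((exactly G X E J q a).ncard : ℝ)

open Classical in
/-- The number of the `(k+1)`-tuples of distinct elements of `U` which do not have all patterns. -/
noncomputable def exceptions (k : ℕ) (G X : ℝ) (V : Finset ℕ) (K J q a : ℕ) (U : Finset ℕ) : ℕ :=
  ((Fintype.piFinset (fun _ : Fin (k + 1) => U)).filter
    (fun y => Function.Injective y ∧ ¬ AllPatterns G X V K J q a y)).card

open Classical in
theorem result : ∃ ρ : ℝ, 0 < ρ ∧ ∀ q : ℕ, Squarefree q → ∀ (k J : ℕ) (ε : ℝ), 0 < ε →
    ∃ (M K n₀ m : ℕ) (c : ℝ), 1 ≤ M ∧ 1 ≤ m ∧ 0 < c ∧ ∀ a : ℕ, a.Coprime q → ∀ᶠ X : ℝ in atTop,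
      ∀ V : Finset ℕ, (∀ v ∈ V, M ∣ v ∧ (v : ℝ) ≤ c * f X) → n₀ ≤ V.card →
        ∃ U : Fin m → Finset ℕ, (∀ j, U j ⊆ V) ∧
          (∀ j, (exceptions k (c * f X) X V K J q a (U j) : ℝ) ≤ ε * ((U j).card : ℝ) ^ (k + 1)) ∧
          ((V.filter (fun v => ((univ.filter (fun j => v ∈ U j)).card : ℝ) < (ρ - ε) * m)).card : ℝ) ≤
            ε * V.card := by
  obtain ⟨ρ, hρ, h⟩ := Pool.Agent.T2q87.RX.exact_clusters
  refine ⟨ρ, hρ, fun q hq k J ε hε => ?_⟩
  obtain ⟨M, K, n₀, m, c, hM, -, hm, hc, h⟩ := h q hq k J ε hε
  refine ⟨M, K, n₀, m, c, hM, hm, hc, fun a ha => ?_⟩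
  filter_upwards [h a ha] with X hX
  intro V hV hn
  obtain ⟨U, hU1, hU2⟩ := hX V hn hV
  refine ⟨U, fun j => (hU1 j).1, fun j => le_trans ?_ (hU1 j).2, hU2⟩
  unfold exceptions
  rw [Nat.cast_le]
  apply card_le_card
  intro y hy
  rw [mem_filter] at hy ⊢
  refine ⟨hy.1, hy.2.1, fun hall => hy.2.2 fun I => ?_⟩
  obtain ⟨E, h1, h2, h3, h4⟩ := hall I
  refine ⟨E, h1, h2, h3, h4.trans (le_of_eq ?_)⟩
  congr 1
  rw [← Set.ncard_coe_finset]
  congr 1
  ext n
  rw [mem_coe]
  unfold Pool.Agent.T2q87.RX.Ex
  rw [mem_filter]
  constructor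
  · rintro ⟨_, h⟩
    exact h
  · intro h
    exact ⟨mem_range.2 (Nat.lt_succ_of_le (Nat.le_floor h.2.1)), h⟩

end Pool.Agent.Results.MP_69be96_nt.IsolatedExactClusters
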