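import Mathlib
import Pool.Agent.T2h81.UC.A14

/-!
# Long runs of integers with a small prime factor in almost all short intervals

Theorem.  There are absolute constants `C, λ₀, X₀` such that for all real `X ≥ X₀` and `λ ≥ λ₀` with
`exp (exp (C λ)) ≤ X`, all integers `M` and all `N ≥ X`: all but at most `exp (-λ) N` of the `N` integers `n` of
`(M, M + N]` have in `(n, n + exp (exp (C λ)) log X]` a run of at least `λ log X` consecutive integers each of which
has a prime factor at most `X ^ (1 / λ)`.

So with `K = exp (exp (C λ))`: almost all intervals of length `K log X`, wherever they lie, contain a run of length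
`c log X log log K` of integers with very small prime factors, uniformly for `K₀ ≤ K ≤ X`.  The size of the integers is
not restricted (`M` is arbitrary): this is a statement on the covering of intervals by residue classes.  The theorems
on Jacobsthal's function (Westzynthius, Erdős, Rankin and others, and those of the starting files) give one such run
in an interval of length `X`; the starting files (`Y831.RC5.Abund5`) give the frequency of such runs, not that they
occur in almost all short intervals.  For `M = X` it gives intervals without primes.

Method.  See `Pool/Agent/T2h81/UC`: the weighted number of covered windows among `J` disjoint windows has, for a random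
`n`, a variance small against the square of its mean; the joint moments of the Brun-Hooley weights of two windows are
bounded with an explicit control of the primes which divide a difference of elements of the two windows.
-/

set_option autoImplicit false

namespace Pool.Agent.Results.MP_69be96_nt.RunsInAlmostAllIntervals

open Finset

/-- Between `n` and `n + K log X` there is a run `m + 1, m + 2, ...` of at least `lam * log X` (rounded down)
consecutive integers each of which has a prime factor at most `X ^ (1 / lam)`. -/
def HasRun (X lam K : ℝ) (n : ℤ) : Prop :=
  ∃ m : ℤ, n ≤ m ∧ (m : ℝ) + lam * Real.log X ≤ n + K * Real.log X ∧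
    ∀ k : ℕ, 1 ≤ k → (k : ℝ) ≤ lam * Real.log X →
      ∃ p : ℕ, p.Prime ∧ (p : ℝ) ≤ X ^ (1 / lam) ∧ (p : ℤ) ∣ m + k

open Classical in
/-- **Almost all short intervals contain long runs of integers with a small prime factor.** -/
theorem result : ∃ C lam₀ X₀ : ℝ, 0 < C ∧ 0 < lam₀ ∧ ∀ X lam : ℝ, X₀ ≤ X → lam₀ ≤ lam →
    Real.exp (Real.exp (C * lam)) ≤ X → ∀ (M : ℤ) (N : ℕ), X ≤ N →
      (((Ioc M (M + N)).filter
        (fun n : ℤ => ¬ HasRun X lam (Real.exp (Real.exp (C * lam))) n)).card : ℝ) ≤
        Real.exp (-lam) * N := by
  obtain ⟨C, lam₀, X₀, hC, hlam₀, hX₀, h⟩ := Pool.Agent.T2h81.UC.main_int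
  refine ⟨C, lam₀, X₀, by linarith, by linarith, fun X lam hX hlam hK M N hN => ?_⟩
  exact h X lam hX hlam hK M N hN

end Pool.Agent.Results.MP_69be96_nt.RunsInAlmostAllIntervals
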