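import Mathlib
import Pool.Agent.T2h81.UC.A17

/-!
# Large gaps follow almost all primes: a uniform theorem

Theorem.  There are absolute constants `C, λ₀, X₀` such that the following holds for all `X ≥ X₀`, all real `λ ≥ λ₀`
and all integers `m` with `exp (exp (C λ)) ≤ m ≤ √X`: for all but at most `exp (-λ) π` of the `π` primes `p` of
`[X, 2X)`, at least `m exp (-exp (C λ))` of the `m` differences of consecutive primes which follow `p` are at least
`λ log` of their left end.

The multiple `λ` of the average gap may grow with `X`.  With `λ = (log log m) / C` one gets: for `m₀ ≤ m ≤ √X`, all but
`(log m)^(-c) π` of the primes of `[X, 2X)` are followed, within the next `m` gaps, by a gap of length at least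
`c log X log log m`.  So the theorem interpolates between gaps longer than any multiple of the average in almost all
intervals `[x, x + ω log x]` (`m → ∞` slowly) and gaps of length `c log X log log X` in almost all intervals of length
a power of `X`.  Before, only the frequency of such gaps was known (`Y831.RC5.Abund5`, in the starting files), not
that they occur in almost all short intervals.

Method.  Large gaps come from covering the integers of a window by residue classes of small primes.  The starting
files show by a moment method in the covering problem (`Y831.RC5`) that a random `n` covers its window with a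
probability at least `exp (-exp (C λ))`.  New here: the weighted number of covered windows among `J` disjoint windows
`(n + i H, n + i H + F]` has, for a random `n`, a variance small against the square of its mean.  This needs an upper
bound for the joint moments of the Brun-Hooley weights of two windows with an explicit control of the collisions,
i.e. of the primes that divide the difference of an element of the first and one of the second window
(`UC.A3`, `UC.A4`, `UC.A9`), the moments with an error `exp (-e / 2)` instead of a constant (`UC.A6`), and the
assembly `UC.A10` - `UC.A14`.  The passage from integers to primes is in `UC.A15` - `UC.A17`.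
-/

set_option autoImplicit false

namespace Pool.Agent.Results.MP_69be96_nt.UniformLargeGaps

open Finset

/-- The prime number with index `k`; `prime 0 = 2`. -/
noncomputable def prime (k : ℕ) : ℕ := Nat.nth Nat.Prime k

/-- The indices of the primes in `[X, 2 X)`. -/
noncomputable def indices (X : ℕ) : Finset ℕ :=
  (range (2 * X)).filter (fun k => X ≤ prime k ∧ prime k < 2 * X)

/-- The number of the large gaps (at least `lam` times the logarithm of the left end) among the `m` differences
`prime (k + i + 1) - prime (k + i)`, `i < m`. -/
noncomputable def largeGaps (lam : ℝ) (m k : ℕ) : ℕ :=
  ((range m).filter (fun i =>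
    lam * Real.log (prime (k + i)) ≤ (prime (k + i + 1) : ℝ) - prime (k + i))).card

open Classical in
/-- **Large gaps follow almost all primes, uniformly up to `log log X` times the average.** -/
theorem result : ∃ C lam₀ : ℝ, ∃ X₀ : ℕ, 0 < C ∧ 0 < lam₀ ∧ ∀ X : ℕ, X₀ ≤ X →
    ∀ lam : ℝ, lam₀ ≤ lam → ∀ m : ℕ, Real.exp (Real.exp (C * lam)) ≤ m → m ^ 2 ≤ X →
      (((indices X).filter (fun k =>
        (largeGaps lam m k : ℝ) < m * Real.exp (-Real.exp (C * lam)))).card : ℝ) ≤
        Real.exp (-lam) * (indices X).card := by
  obtain ⟨C, lam₀, X₀, hC, hlam₀, h⟩ := Pool.Agent.T2h81.UC.many_unif
  exact ⟨C, lam₀, X₀, by linarith, by linarith, fun X hX lam hlam m hm hmX =>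
    h X hX lam hlam m hm hmX⟩

end Pool.Agent.Results.MP_69be96_nt.UniformLargeGaps
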